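import Mathlib
import Pool.Agent.Run7.h640.FP.Iface

/-!
# Project FP: recursion for `En`, `Fn`, and the piece POS
-/

set_option autoImplicit false

open Finset
open scoped Classical

namespace Run7.h957.FP

open Run7.h640.FP

variable {α : Type*}

lemma mem_Mn {r : α → α → Prop} {S : Finset α} {m : α} :
    m ∈ Mn r S ↔ m ∈ S ∧ ∀ a ∈ S, ¬ r a m := by
  simp [Mn]

lemma Mn_subset (r : α → α → Prop) (S : Finset α) : Mn r S ⊆ S := Finset.filter_subset _ _

lemma Mn_nonempty {r : α → α → Prop} (hr : IsStrictOrder α r) {S : Finset α} (h : S.Nonempty) :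
    (Mn r S).Nonempty := by
  obtain ⟨m, hm, hmin⟩ := Finset.exists_min_image S (fun m => (S.filter fun a => r a m).card) h
  refine ⟨m, mem_Mn.2 ⟨hm, fun a ha ham => ?_⟩⟩
  have h1 := hmin a ha
  have h2 : (S.filter fun b => r b a) ⊂ (S.filter fun b => r b m) := by
    rw [Finset.ssubset_iff_of_subset]
    · exact ⟨a, by simp [ha, ham], by simp [hr.irrefl a]⟩
    · intro b hb
      simp only [Finset.mem_filter] at hb ⊢
      exact ⟨hb.1, hr.trans _ _ _ hb.2 ham⟩
  have h3 := Finset.card_lt_card h2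
  omega

lemma En_empty (r : α → α → Prop) : En r (∅ : Finset α) = 1 := by
  simp [En, Ek]

lemma Fn_empty (r : α → α → Prop) (x y : α) : Fn r x y (∅ : Finset α) = 0 := by
  simp [Fn, Fk]

lemma En_eq (r : α → α → Prop) {S : Finset α} (h : S.Nonempty) :
    En r S = ∑ m ∈ Mn r S, En r (S.erase m) := by
  obtain ⟨k, hk⟩ : ∃ k, S.card = k + 1 := ⟨S.card - 1, by have := h.card_pos; omega⟩
  unfold En
  rw [hk]
  show ∑ m ∈ Mn r S, Ek r k (S.erase m) = _
  refine Finset.sum_congr rfl fun m hm => ?_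
  rw [Finset.card_erase_of_mem (Mn_subset r S hm), hk, Nat.add_sub_cancel]

lemma Fn_eq (r : α → α → Prop) (x y : α) {S : Finset α} (h : S.Nonempty) :
    Fn r x y S = ∑ m ∈ Mn r S,
      if m = y then 0 else if m = x then En r (S.erase m) else Fn r x y (S.erase m) := by
  obtain ⟨k, hk⟩ : ∃ k, S.card = k + 1 := ⟨S.card - 1, by have := h.card_pos; omega⟩
  unfold Fn En
  rw [hk]
  show ∑ m ∈ Mn r S, (if m = y then 0 else if m = x then Ek r k (S.erase m) else
    Fk r x y k (S.erase m)) = _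
  refine Finset.sum_congr rfl fun m hm => ?_
  rw [Finset.card_erase_of_mem (Mn_subset r S hm), hk, Nat.add_sub_cancel]

lemma En_pos {r : α → α → Prop} (hr : IsStrictOrder α r) :
    ∀ (k : ℕ) (S : Finset α), S.card = k → 0 < En r S
  | 0, S, hS => by
    rw [Finset.card_eq_zero.1 hS, En_empty]; exact one_pos
  | k + 1, S, hS => by
    have hne : S.Nonempty := Finset.card_pos.1 (by omega)
    rw [En_eq r hne]
    refine Finset.sum_pos (fun m hm => ?_) (Mn_nonempty hr hne)
    refine En_pos hr k _ ?_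
    rw [Finset.card_erase_of_mem (Mn_subset r S hm), hS, Nat.add_sub_cancel]

lemma Fn_add {r : α → α → Prop} (hr : IsStrictOrder α r) :
    ∀ (k : ℕ) (S : Finset α), S.card = k → ∀ x ∈ S, ∀ y ∈ S, x ≠ y →
      Fn r x y S + Fn r y x S = En r S
  | 0, S, hS, x, hx, _, _, _ => by
    rw [Finset.card_eq_zero.1 hS] at hx
    simp at hx
  | k + 1, S, hS, x, hx, y, hy, hxy => by
    have hne : S.Nonempty := ⟨x, hx⟩
    rw [En_eq r hne, Fn_eq r x y hne, Fn_eq r y x hne, ← Finset.sum_add_distrib]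
    refine Finset.sum_congr rfl fun m hm => ?_
    have hc : (S.erase m).card = k := by
      rw [Finset.card_erase_of_mem (Mn_subset r S hm), hS, Nat.add_sub_cancel]
    by_cases h1 : m = y
    · subst h1
      simp [Ne.symm hxy]
    · by_cases h2 : m = x
      · subst h2
        simp [hxy]
      · simp only [h1, h2, if_false]
        exact Fn_add hr k _ hc x (Finset.mem_erase.2 ⟨fun h => h2 h.symm, hx⟩) y
          (Finset.mem_erase.2 ⟨fun h => h1 h.symm, hy⟩) hxy

theorem prove_POS : S_POS := fun _ _ hr S =>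
  ⟨En_pos hr _ S rfl, fun x hx y hy hxy => Fn_add hr _ S rfl x hx y hy hxy⟩

end Run7.h957.FP
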