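import Mathlib
import Pool.Agent.Run7.h957.FP.Base

/-!
# Project FP: the piece DUAL
-/

set_option autoImplicit false

open Finset
open scoped Classical

namespace Run7.h957.FP

open Run7.h640.FP

variable {α : Type*}

/-- the maximal elements after removing a minimal one -/
lemma Mn_flip_erase {r : α → α → Prop} {S : Finset α} {m : α} (hm : m ∈ Mn r S) :
    Mn (fun a b => r b a) (S.erase m) = (Mn (fun a b => r b a) S).erase m := by
  ext M
  simp only [mem_Mn, Finset.mem_erase]
  constructor
  · rintro ⟨⟨h1, h2⟩, h3⟩
    refine ⟨h1, h2, fun a ha hr => ?_⟩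
    by_cases ham : a = m
    · subst ham
      exact (mem_Mn.1 hm).2 M h2 hr
    · exact h3 a ⟨ham, ha⟩ hr
  · rintro ⟨h1, h2, h3⟩
    exact ⟨⟨h1, h2⟩, fun a ha hr => h3 a ha.2 hr⟩

lemma flip_strict {r : α → α → Prop} (hr : IsStrictOrder α r) :
    IsStrictOrder α (fun a b => r b a) where
  irrefl := fun a h => hr.irrefl a h
  trans := fun _ _ _ h1 h2 => hr.trans _ _ _ h2 h1

lemma dual_En {r : α → α → Prop} (hr : IsStrictOrder α r) :
    ∀ (n k : ℕ), k ≤ n → ∀ (S : Finset α), S.card = k → En (fun a b => r b a) S = En r S
  | 0, k, hk, S, hS => by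
    have : S.card = 0 := by omega
    rw [Finset.card_eq_zero.1 this, En_empty, En_empty]
  | n + 1, k, hk, S, hS => by
    rcases Nat.lt_or_ge k (n + 1) with hkn | hkn
    · exact dual_En hr n k (by omega) S hS
    have hSn : S.card = n + 1 := by omega
    have hne : S.Nonempty := Finset.card_pos.1 (by omega)
    rcases Nat.eq_zero_or_pos n with hn0 | hn0
    · -- one element
      subst hn0
      obtain ⟨a, rfl⟩ := Finset.card_eq_one.1 hSn
      have h1 : ∀ s : α → α → Prop, IsStrictOrder α s → En s ({a} : Finset α) = 1 := by
        intro s hs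
        have : Mn s ({a} : Finset α) = {a} := by
          ext b
          simp only [mem_Mn, Finset.mem_singleton]
          constructor
          · exact fun h => h.1
          · rintro rfl
            exact ⟨rfl, fun c hc => by rw [hc]; exact hs.irrefl _⟩
        rw [En_eq s (Finset.singleton_nonempty a), this, Finset.sum_singleton]
        simp [En_empty]
      rw [h1 r hr, h1 _ (flip_strict hr)]
    · have hc : ∀ a ∈ S, (S.erase a).card = n := fun a ha => by
        rw [Finset.card_erase_of_mem ha, hSn, Nat.add_sub_cancel]
      have hne' : ∀ a ∈ S, (S.erase a).Nonempty := fun a ha => by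
        rw [← Finset.card_pos, hc a ha]; exact hn0
      rw [En_eq r hne, En_eq _ hne]
      have e1 : ∀ m ∈ Mn r S, En r (S.erase m) =
          ∑ M ∈ Mn (fun a b => r b a) S, if M = m then 0 else
            En r ((S.erase m).erase M) := by
        intro m hm
        have hmS := Mn_subset r S hm
        rw [← dual_En hr n n le_rfl _ (hc m hmS), En_eq _ (hne' m hmS), Mn_flip_erase hm]
        rw [← Finset.sum_filter_add_sum_filter_not (Mn (fun a b => r b a) S) (fun M => M = m)]
        rw [Finset.sum_eq_zero (s := filter (fun M => M = m) _) (fun M hM => by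
          rw [if_pos (Finset.mem_filter.1 hM).2]), zero_add]
        have hset : (Mn (fun a b => r b a) S).erase m =
            filter (fun M => ¬ M = m) (Mn (fun a b => r b a) S) := by
          ext M; simp only [Finset.mem_erase, Finset.mem_filter]; tauto
        rw [hset]
        refine Finset.sum_congr rfl fun M hM => ?_
        rw [Finset.mem_filter] at hM
        rw [if_neg hM.2]
        refine dual_En hr n (n - 1) (by omega) _ ?_
        rw [Finset.card_erase_of_mem (Finset.mem_erase.2 ⟨hM.2, Mn_subset _ S hM.1⟩), hc m hmS]
      have e2 : ∀ M ∈ Mn (fun a b => r b a) S, En (fun a b => r b a) (S.erase M) =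
          ∑ m ∈ Mn r S, if M = m then 0 else En r ((S.erase m).erase M) := by
        intro M hM
        have hMS := Mn_subset _ S hM
        rw [dual_En hr n n le_rfl _ (hc M hMS), En_eq _ (hne' M hMS),
          Mn_flip_erase (r := fun a b => r b a) hM]
        rw [← Finset.sum_filter_add_sum_filter_not (Mn r S) (fun m => M = m)]
        rw [Finset.sum_eq_zero (s := filter (fun m => M = m) _) (fun m hm => by
          rw [if_pos (Finset.mem_filter.1 hm).2]), zero_add]
        have hset : (Mn r S).erase M = filter (fun m => ¬ M = m) (Mn r S) := by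
          ext m; simp only [Finset.mem_erase, Finset.mem_filter]
          constructor
          · exact fun h => ⟨h.2, fun h' => h.1 h'.symm⟩
          · exact fun h => ⟨fun h' => h.2 h'.symm, h.1⟩
        rw [hset]
        refine Finset.sum_congr rfl fun m hm => ?_
        rw [Finset.mem_filter] at hm
        rw [if_neg hm.2, Finset.erase_right_comm]
      rw [Finset.sum_congr rfl e1, Finset.sum_congr rfl e2, Finset.sum_comm]

lemma dual_Fn {r : α → α → Prop} (hr : IsStrictOrder α r) :
    ∀ (n k : ℕ), k ≤ n → ∀ (S : Finset α), S.card = k → ∀ x ∈ S, ∀ y ∈ S, x ≠ y →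
      Fn (fun a b => r b a) y x S = Fn r x y S
  | 0, k, hk, S, hS, x, hx, _, _, _ => by
    have : S.card = 0 := by omega
    rw [Finset.card_eq_zero.1 this] at hx
    simp at hx
  | n + 1, k, hk, S, hS, x, hx, y, hy, hxy => by
    rcases Nat.lt_or_ge k (n + 1) with hkn | hkn
    · exact dual_Fn hr n k (by omega) S hS x hx y hy hxy
    have hSn : S.card = n + 1 := by omega
    have hne : S.Nonempty := ⟨x, hx⟩
    have hn0 : 0 < n := by
      rcases Nat.eq_zero_or_pos n with hn0 | hn0
      · subst hn0
        obtain ⟨a, rfl⟩ := Finset.card_eq_one.1 hSn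
        rw [Finset.mem_singleton] at hx hy
        exact absurd (hx.trans hy.symm) hxy
      · exact hn0
    have hc : ∀ a ∈ S, (S.erase a).card = n := fun a ha => by
      rw [Finset.card_erase_of_mem ha, hSn, Nat.add_sub_cancel]
    have hne' : ∀ a ∈ S, (S.erase a).Nonempty := fun a ha => by
      rw [← Finset.card_pos, hc a ha]; exact hn0
    rw [Fn_eq r x y hne, Fn_eq _ y x hne]
    -- the common value for the pair `m`, `M`
    set g : α → α → ℕ := fun m M =>
      if M = m then 0 else if m = y then 0 else if m = x then En r ((S.erase m).erase M)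
      else if M = x then 0 else if M = y then En r ((S.erase m).erase M)
      else Fn r x y ((S.erase m).erase M) with hg
    have e1 : ∀ m ∈ Mn r S, (if m = y then 0 else if m = x then En r (S.erase m)
        else Fn r x y (S.erase m)) = ∑ M ∈ Mn (fun a b => r b a) S, g m M := by
      intro m hm
      have hmS := Mn_subset r S hm
      have hset : (Mn (fun a b => r b a) S).erase m =
            filter (fun M => ¬ M = m) (Mn (fun a b => r b a) S) := by
          ext M; simp only [Finset.mem_erase, Finset.mem_filter]; tauto
      rw [← Finset.sum_filter_add_sum_filter_not (Mn (fun a b => r b a) S) (fun M => M = m)]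
      rw [Finset.sum_eq_zero (s := filter (fun M => M = m) _) (fun M hM => by
          simp only [hg]; rw [if_pos (Finset.mem_filter.1 hM).2]), zero_add]
      by_cases h1 : m = y
      · rw [if_pos h1]
        refine (Finset.sum_eq_zero fun M hM => ?_).symm
        simp only [hg]
        rw [if_neg (Finset.mem_filter.1 hM).2, if_pos h1]
      · rw [if_neg h1]
        by_cases h2 : m = x
        · rw [if_pos h2, ← dual_En hr n n le_rfl _ (hc m hmS), En_eq _ (hne' m hmS),
            Mn_flip_erase hm, hset]
          refine Finset.sum_congr rfl fun M hM => ?_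
          rw [Finset.mem_filter] at hM
          simp only [hg]
          rw [if_neg hM.2, if_neg h1, if_pos h2]
          refine dual_En hr n (n - 1) (by omega) _ ?_
          rw [Finset.card_erase_of_mem (Finset.mem_erase.2 ⟨hM.2, Mn_subset _ S hM.1⟩), hc m hmS]
        · have hxm : x ∈ S.erase m := Finset.mem_erase.2 ⟨fun h => h2 h.symm, hx⟩
          have hym : y ∈ S.erase m := Finset.mem_erase.2 ⟨fun h => h1 h.symm, hy⟩
          rw [if_neg h2, ← dual_Fn hr n n le_rfl _ (hc m hmS) x hxm y hym hxy,
            Fn_eq _ _ _ (hne' m hmS), Mn_flip_erase hm, hset]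
          refine Finset.sum_congr rfl fun M hM => ?_
          rw [Finset.mem_filter] at hM
          have hcc : ((S.erase m).erase M).card = n - 1 := by
            rw [Finset.card_erase_of_mem (Finset.mem_erase.2 ⟨hM.2, Mn_subset _ S hM.1⟩),
              hc m hmS]
          simp only [hg]
          rw [if_neg hM.2, if_neg h1, if_neg h2]
          by_cases h3 : M = x
          · rw [if_pos h3, if_pos h3]
          · rw [if_neg h3, if_neg h3]
            by_cases h4 : M = y
            · rw [if_pos h4, if_pos h4]
              exact dual_En hr n (n - 1) (by omega) _ hcc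
            · rw [if_neg h4, if_neg h4]
              exact dual_Fn hr n (n - 1) (by omega) _ hcc x
                (Finset.mem_erase.2 ⟨fun h => h3 h.symm, hxm⟩) y
                (Finset.mem_erase.2 ⟨fun h => h4 h.symm, hym⟩) hxy
    have e2 : ∀ M ∈ Mn (fun a b => r b a) S, (if M = x then 0 else if M = y then
        En (fun a b => r b a) (S.erase M) else Fn (fun a b => r b a) y x (S.erase M)) =
        ∑ m ∈ Mn r S, g m M := by
      intro M hM
      have hMS := Mn_subset _ S hM
      have hset : (Mn r S).erase M = filter (fun m => ¬ M = m) (Mn r S) := by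
          ext m; simp only [Finset.mem_erase, Finset.mem_filter]
          constructor
          · exact fun h => ⟨h.2, fun h' => h.1 h'.symm⟩
          · exact fun h => ⟨fun h' => h.2 h'.symm, h.1⟩
      rw [← Finset.sum_filter_add_sum_filter_not (Mn r S) (fun m => M = m)]
      rw [Finset.sum_eq_zero (s := filter (fun m => M = m) _) (fun m hm => by
          simp only [hg]; rw [if_pos (Finset.mem_filter.1 hm).2]), zero_add]
      by_cases h1 : M = x
      · rw [if_pos h1]
        refine (Finset.sum_eq_zero fun m hm => ?_).symm
        rw [Finset.mem_filter] at hm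
        simp only [hg]
        rw [if_neg hm.2]
        by_cases h5 : m = y
        · rw [if_pos h5]
        · rw [if_neg h5, if_neg (fun h => hm.2 (h1.trans h.symm)), if_pos h1]
      · rw [if_neg h1]
        by_cases h2 : M = y
        · rw [if_pos h2, dual_En hr n n le_rfl _ (hc M hMS), En_eq _ (hne' M hMS),
            Mn_flip_erase (r := fun a b => r b a) hM, hset]
          refine Finset.sum_congr rfl fun m hm => ?_
          rw [Finset.mem_filter] at hm
          simp only [hg]
          rw [if_neg hm.2, if_neg (fun h => hm.2 (h2.trans h.symm)), Finset.erase_right_comm]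
          by_cases h6 : m = x
          · rw [if_pos h6]
          · rw [if_neg h6, if_neg h1, if_pos h2]
        · have hxM : x ∈ S.erase M := Finset.mem_erase.2 ⟨fun h => h1 h.symm, hx⟩
          have hyM : y ∈ S.erase M := Finset.mem_erase.2 ⟨fun h => h2 h.symm, hy⟩
          rw [if_neg h2, dual_Fn hr n n le_rfl _ (hc M hMS) x hxM y hyM hxy,
            Fn_eq _ _ _ (hne' M hMS), Mn_flip_erase (r := fun a b => r b a) hM, hset]
          refine Finset.sum_congr rfl fun m hm => ?_
          rw [Finset.mem_filter] at hm
          simp only [hg]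
          rw [if_neg hm.2, Finset.erase_right_comm]
          by_cases h3 : m = y
          · rw [if_pos h3, if_pos h3]
          · rw [if_neg h3, if_neg h3]
            by_cases h4 : m = x
            · rw [if_pos h4, if_pos h4]
            · rw [if_neg h4, if_neg h4, if_neg h1, if_neg h2]
    rw [Finset.sum_congr rfl e1, Finset.sum_congr rfl e2, Finset.sum_comm]

theorem prove_DUAL : S_DUAL := fun _ _ hr S =>
  ⟨dual_En hr _ _ le_rfl S rfl, fun x hx y hy hxy => dual_Fn hr _ _ le_rfl S rfl x hx y hy hxy⟩

end Run7.h957.FP
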