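import Mathlib
import Pool.Agent.Run7.h957.FP.Base

/-!
# Project FP: the piece MAP
-/

set_option autoImplicit false

open Finset
open scoped Classical

namespace Run7.h957.FP

open Run7.h640.FP

variable {α β : Type*}

lemma image_erase' {f : α → β} {S : Finset α} (hf : Set.InjOn f (S : Set α)) {m : α} (hm : m ∈ S) :
    (S.image f).erase (f m) = (S.erase m).image f := by
  ext b
  simp only [Finset.mem_erase, Finset.mem_image]
  constructor
  · rintro ⟨h1, a, ha, rfl⟩
    exact ⟨a, ⟨fun h => h1 (by rw [h]), ha⟩, rfl⟩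
  · rintro ⟨a, ⟨h1, ha⟩, rfl⟩
    exact ⟨fun h => h1 (hf ha hm h), a, ha, rfl⟩

lemma Mn_image {r : α → α → Prop} {s : β → β → Prop} {f : α → β} {S : Finset α}
    (hrs : ∀ a ∈ S, ∀ b ∈ S, (s (f a) (f b) ↔ r a b)) :
    Mn s (S.image f) = (Mn r S).image f := by
  ext b
  simp only [mem_Mn, Finset.mem_image]
  constructor
  · rintro ⟨⟨a, ha, rfl⟩, h⟩
    exact ⟨a, ⟨ha, fun c hc hca => h _ ⟨c, hc, rfl⟩ ((hrs c hc a ha).2 hca)⟩, rfl⟩
  · rintro ⟨a, ⟨ha, h⟩, rfl⟩
    refine ⟨⟨a, ha, rfl⟩, ?_⟩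
    rintro _ ⟨c, hc, rfl⟩ hs
    exact h c hc ((hrs c hc a ha).1 hs)

lemma map_En {r : α → α → Prop} {s : β → β → Prop} {f : α → β} :
    ∀ (k : ℕ) (S : Finset α), S.card = k → Set.InjOn f (S : Set α) →
      (∀ a ∈ S, ∀ b ∈ S, (s (f a) (f b) ↔ r a b)) → En s (S.image f) = En r S
  | 0, S, hS, _, _ => by
    rw [Finset.card_eq_zero.1 hS, Finset.image_empty, En_empty, En_empty]
  | k + 1, S, hS, hf, hrs => by
    have hne : S.Nonempty := Finset.card_pos.1 (by omega)
    rw [En_eq r hne, En_eq s (hne.image f), Mn_image hrs,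
      Finset.sum_image (fun a ha b hb h => hf (Mn_subset r S ha) (Mn_subset r S hb) h)]
    refine Finset.sum_congr rfl fun m hm => ?_
    have hmS := Mn_subset r S hm
    rw [image_erase' hf hmS]
    refine map_En k _ ?_ (hf.mono ?_) ?_
    · rw [Finset.card_erase_of_mem hmS, hS, Nat.add_sub_cancel]
    · exact fun a ha => Finset.mem_of_mem_erase ha
    · exact fun a ha b hb => hrs a (Finset.mem_of_mem_erase ha) b (Finset.mem_of_mem_erase hb)

lemma map_Fn {r : α → α → Prop} {s : β → β → Prop} {f : α → β} :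
    ∀ (k : ℕ) (S T : Finset α), S.card = k → Set.InjOn f (T : Set α) → S ⊆ T →
      (∀ a ∈ T, ∀ b ∈ T, (s (f a) (f b) ↔ r a b)) →
      ∀ x ∈ T, ∀ y ∈ T, Fn s (f x) (f y) (S.image f) = Fn r x y S
  | 0, S, T, hS, _, _, _, x, _, y, _ => by
    rw [Finset.card_eq_zero.1 hS, Finset.image_empty, Fn_empty, Fn_empty]
  | k + 1, S, T, hS, hf, hST, hrs, x, hx, y, hy => by
    have hne : S.Nonempty := Finset.card_pos.1 (by omega)
    have hrs' : ∀ a ∈ S, ∀ b ∈ S, (s (f a) (f b) ↔ r a b) :=
      fun a ha b hb => hrs a (hST ha) b (hST hb)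
    have hfS : Set.InjOn f (S : Set α) := hf.mono hST
    rw [Fn_eq r x y hne, Fn_eq s (f x) (f y) (hne.image f), Mn_image hrs',
      Finset.sum_image (fun a ha b hb h => hfS (Mn_subset r S ha) (Mn_subset r S hb) h)]
    refine Finset.sum_congr rfl fun m hm => ?_
    have hmS := Mn_subset r S hm
    have e1 : f m = f y ↔ m = y := ⟨fun h => hf (hST hmS) hy h, fun h => by rw [h]⟩
    have e2 : f m = f x ↔ m = x := ⟨fun h => hf (hST hmS) hx h, fun h => by rw [h]⟩
    have hc : (S.erase m).card = k := by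
      rw [Finset.card_erase_of_mem hmS, hS, Nat.add_sub_cancel]
    rw [image_erase' hfS hmS]
    simp only [e1, e2]
    by_cases h1 : m = y
    · simp [h1]
    · by_cases h2 : m = x
      · simp only [h2, if_true]
        split_ifs with h3
        · rfl
        · refine map_En k _ ?_ (hfS.mono ?_) ?_
          · rw [← h2]; exact hc
          · exact fun a ha => Finset.mem_of_mem_erase ha
          · exact fun a ha b hb => hrs' a (Finset.mem_of_mem_erase ha) b
              (Finset.mem_of_mem_erase hb)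
      · simp only [h1, h2, if_false]
        exact map_Fn k _ T hc hf (fun a ha => hST (Finset.mem_of_mem_erase ha)) hrs x hx y hy

theorem prove_MAP : S_MAP := fun _ _ _ _ _ S hf hrs =>
  ⟨map_En _ S rfl hf hrs, fun x hx y hy =>
    map_Fn _ S S rfl hf (Finset.Subset.refl _) hrs x hx y hy⟩

end Run7.h957.FP
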