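import Mathlib
import Pool.Agent.Run7.h957.FP.Base

/-!
# Project FP: the piece STEP
-/

set_option autoImplicit false

open Finset
open scoped Classical

namespace Run7.h957.FP

open Run7.h640.FP

variable {α : Type*}

lemma step {r : α → α → Prop} (hr : IsStrictOrder α r) :
    ∀ (n : ℕ) (S : Finset α) (m : α) (k : ℕ), S.card = n → m ∈ Mn r S →
      (S.filter fun a => a ≠ m ∧ ¬ r m a).card ≤ k → En r S ≤ (k + 1) * En r (S.erase m)
  | 0, S, m, k, hS, hm, _ => by
    rw [Finset.card_eq_zero.1 hS] at hm
    simp [Mn] at hm
  | n + 1, S, m, k, hS, hm, hk => by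
    have hmS : m ∈ S := Mn_subset r S hm
    have hne : S.Nonempty := ⟨m, hmS⟩
    rw [En_eq r hne, ← Finset.add_sum_erase _ _ hm]
    -- the other minimal elements
    have key : ∀ m' ∈ (Mn r S).erase m, En r (S.erase m') ≤ k * En r ((S.erase m).erase m') := by
      intro m' hm'
      rw [Finset.mem_erase] at hm'
      obtain ⟨hne', hm'S⟩ := hm'
      have hm'' : m' ∈ S := Mn_subset r S hm'S
      have hmem : m' ∈ S.filter fun a => a ≠ m ∧ ¬ r m a := by
        simp only [Finset.mem_filter]
        exact ⟨hm'', hne', (mem_Mn.1 hm'S).2 m hmS⟩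
      have hkpos : 1 ≤ k := le_trans (Finset.card_pos.2 ⟨m', hmem⟩) hk
      have hfil : ((S.erase m').filter fun a => a ≠ m ∧ ¬ r m a).card ≤ k - 1 := by
        have : (S.erase m').filter (fun a => a ≠ m ∧ ¬ r m a) =
            (S.filter fun a => a ≠ m ∧ ¬ r m a).erase m' := by
          ext a
          simp only [Finset.mem_filter, Finset.mem_erase]
          tauto
        rw [this, Finset.card_erase_of_mem hmem]
        omega
      have hmin : m ∈ Mn r (S.erase m') := by
        rw [mem_Mn]
        refine ⟨Finset.mem_erase.2 ⟨fun h => hne' h.symm, hmS⟩, fun a ha => ?_⟩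
        exact (mem_Mn.1 hm).2 a (Finset.mem_of_mem_erase ha)
      have hc : (S.erase m').card = n := by
        rw [Finset.card_erase_of_mem hm'', hS, Nat.add_sub_cancel]
      have := step hr n (S.erase m') m (k - 1) hc hmin hfil
      rw [Nat.sub_add_cancel hkpos, Finset.erase_right_comm] at this
      exact this
    have hsum : ∑ m' ∈ (Mn r S).erase m, En r (S.erase m') ≤ k * En r (S.erase m) := by
      rcases (S.erase m).eq_empty_or_nonempty with he | hne2
      · have : (Mn r S).erase m = ∅ := by
          rw [Finset.eq_empty_iff_forall_notMem]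
          intro a ha
          rw [Finset.mem_erase] at ha
          have : a ∈ S.erase m := Finset.mem_erase.2 ⟨ha.1, Mn_subset r S ha.2⟩
          rw [he] at this
          simp at this
        rw [this]
        simp
      · rw [En_eq r hne2, Finset.mul_sum]
        refine le_trans (Finset.sum_le_sum key) ?_
        refine Finset.sum_le_sum_of_subset ?_
        intro a ha
        rw [Finset.mem_erase] at ha
        rw [mem_Mn]
        refine ⟨Finset.mem_erase.2 ⟨ha.1, Mn_subset r S ha.2⟩, fun b hb => ?_⟩
        exact (mem_Mn.1 ha.2).2 b (Finset.mem_of_mem_erase hb)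
    linarith [hsum, Nat.add_mul k 1 (En r (S.erase m))]

theorem prove_STEP : S_STEP := fun _ _ hr S m k hm hk => step hr _ S m k rfl hm hk

end Run7.h957.FP
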